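import Pool.Agent.W925.QS.GrowOf
import Pool.Agent.W188.QS.All

/-! Project QS, part GROW, without hypotheses. -/

set_option autoImplicit false

namespace Pool.Agent.W925.QS

open Pool.Agent.W188.QS

theorem qs_grow : Pool.Agent.W188.QS.StGrow := qs_grow_of a_maj a_line a_meas a_quad a_qs

end Pool.Agent.W925.QS
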