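import Pool.Agent.W188.QS.Asm3
import Pool.Agent.W188.QS.Stm5

/-! Project QS, part GROW: polynomial growth of the two measures. -/

set_option autoImplicit false

open Complex MeasureTheory Set Filter Topology

namespace Pool.Agent.W925.QS

open Pool.Agent.W188.QS

/-- dyadic induction -/
theorem dyadic (V : ℝ → ℝ) (hV : Monotone V) (a : ℕ) (ha : 1 ≤ a) (K0 T1 : ℝ) (hT1 : 1 ≤ T1)
    (h : ∀ T, T1 ≤ T → V (2 * T) ≤ V T + K0 * T ^ a) :
    ∃ K : ℝ, 0 ≤ K ∧ ∀ T, T1 ≤ T → V T ≤ K * T ^ a := by
  set K := max (max K0 (V (2 * T1))) 0 with hK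
  have hK0 : K0 ≤ K := (le_max_left _ _).trans (le_max_left _ _)
  have hK1 : V (2 * T1) ≤ K := (le_max_right _ _).trans (le_max_left _ _)
  have hK2 : 0 ≤ K := le_max_right _ _
  refine ⟨K, hK2, ?_⟩
  have key : ∀ n : ℕ, ∀ T, T1 ≤ T → T ≤ 2 ^ (n + 1) * T1 → V T ≤ K * T ^ a := by
    intro n
    induction n with
    | zero =>
      intro T h1 h2
      have h3 : V T ≤ V (2 * T1) := hV (by simpa using h2)
      have h4 : (1 : ℝ) ≤ T ^ a := one_le_pow₀ (by linarith)
      nlinarith
    | succ n ih =>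
      intro T h1 h2
      by_cases h3 : T ≤ 2 ^ (n + 1) * T1
      · exact ih T h1 h3
      · push Not at h3
        have h4 : T1 ≤ T / 2 := by
          have h5 : (1 : ℝ) ≤ 2 ^ n := one_le_pow₀ (by norm_num)
          have h6 : (2 : ℝ) ^ (n + 1) = 2 * 2 ^ n := by ring
          rw [h6] at h3
          nlinarith
        have h5 : T / 2 ≤ 2 ^ (n + 1) * T1 := by
          have h6 : (2 : ℝ) ^ (n + 1 + 1) = 2 * 2 ^ (n + 1) := by ring
          rw [h6] at h2
          linarith
        have h6 := ih (T / 2) h4 h5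
        have h7 := h (T / 2) h4
        rw [show 2 * (T / 2) = T by ring] at h7
        obtain ⟨b, rfl⟩ : ∃ b, a = b + 1 := ⟨a - 1, by omega⟩
        have hT0 : 0 ≤ T := by linarith
        have h8 : (0 : ℝ) ≤ (T / 2) ^ b := pow_nonneg (by linarith) b
        have h9 : (T / 2) ^ b ≤ T ^ b := pow_le_pow_left₀ (by linarith) (by linarith) b
        have h10 : (T / 2) ^ (b + 1) = (T / 2) ^ b * (T / 2) := pow_succ _ _
        have h11 : K0 * (T / 2) ^ (b + 1) ≤ K * (T / 2) ^ (b + 1) :=
          mul_le_mul_of_nonneg_right hK0 (pow_nonneg (by linarith) _)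
        calc V T ≤ K * (T / 2) ^ (b + 1) + K * (T / 2) ^ (b + 1) := by linarith
          _ = K * T * (T / 2) ^ b := by rw [h10]; ring
          _ ≤ K * T * T ^ b := mul_le_mul_of_nonneg_left h9 (by
              have : 0 ≤ T := by linarith
              positivity)
          _ = K * T ^ (b + 1) := by rw [pow_succ]; ring
  intro T hT
  obtain ⟨n, hn⟩ := pow_unbounded_of_one_lt T (by norm_num : (1 : ℝ) < 2)
  refine key n T hT ?_
  have h5 : (1 : ℝ) ≤ 2 ^ n := one_le_pow₀ (by norm_num)
  have h6 : (2 : ℝ) ^ (n + 1) = 2 * 2 ^ n := by ring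
  rw [h6]
  nlinarith

theorem qs_grow_of (hT : StMaj) (hL : StLine) (hM : StMeas) (hQ : StQuad) (hS : StQS) :
    StGrow := by
  intro c k N hc hk hN hkN
  refine ⟨((4 * k + 2 : ℕ) : ℝ), ?_, ?_⟩
  · have hup := upper_rho hT hL hM hQ hS hc hk hN hkN (ε := 1 / 2) (by norm_num) le_rfl
    obtain ⟨T0, hT0⟩ := eventually_atTop.1 hup
    set T1 := max T0 200 with hT1
    have hT1a : T0 ≤ T1 := le_max_left _ _
    have hT1b : 200 ≤ T1 := le_max_right _ _
    have hpos : ∀ t ∈ PP c N, 0 ≤ rho k N t := fun t ht => rho_nonneg hL k ht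
    obtain ⟨K, hK, hbd⟩ := dyadic (fun T => SS c N (rho k N) 0 T)
      (fun x y hxy => SS_mono hL hc hN hpos le_rfl hxy) (4 * k + 1) (by omega)
      (3 / 2 * (5 / 2) ^ (4 * k + 1)) T1 (by linarith) (by
        intro T hT2
        have hT200 : 200 ≤ T := hT1b.trans hT2
        have h1 := hT0 T (hT1a.trans hT2)
        have h2 : SS c N (rho k N) 0 (2 * T) = SS c N (rho k N) 0 T + SS c N (rho k N) T (2 * T) :=
          SS_add hL hc hN _ (by linarith) (by linarith)
        rw [h2]
        have h3 : ∫ t in ((1 - 1 / 2) * T)..((2 + 1 / 2) * T), Zk k t ≤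
            ∫ t in (100 : ℝ)..((2 + 1 / 2) * T), Zk k t := by
          have e := intervalIntegral.integral_add_adjacent_intervals (μ := volume)
            ((Zk_cont k).intervalIntegrable 100 ((1 - 1 / 2) * T))
            ((Zk_cont k).intervalIntegrable ((1 - 1 / 2) * T) ((2 + 1 / 2) * T))
          have h4 : 0 ≤ ∫ t in (100 : ℝ)..((1 - 1 / 2) * T), Zk k t :=
            intervalIntegral.integral_nonneg (by linarith) (fun t _ => Zk_nonneg k t)
          linarith
        have h4 := grow k (T := (2 + 1 / 2) * T) (by linarith)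
        rw [Real.rpow_natCast] at h4
        have h5 : ((2 + 1 / 2) * T) ^ (4 * k + 1) = (5 / 2) ^ (4 * k + 1) * T ^ (4 * k + 1) := by
          rw [← mul_pow]; norm_num
        rw [h5] at h4
        nlinarith)
    filter_upwards [eventually_ge_atTop T1, eventually_ge_atTop K] with T h1 h2
    rw [nuk_real hM hc hk hN]
    refine (hbd T h1).trans ?_
    rw [Real.rpow_natCast, show 4 * k + 2 = (4 * k + 1) + 1 by ring, pow_succ T (4 * k + 1),
      mul_comm]
    exact mul_le_mul_of_nonneg_left h2 (by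
      have : 0 ≤ T := by linarith
      positivity)
  · filter_upwards [eventually_ge_atTop 100] with T h1
    rw [(hM c k N hc hk hN).2.2.2.2.2.1 T h1]
    refine (grow k h1).trans ?_
    exact Real.rpow_le_rpow_of_exponent_le (by linarith) (by push_cast; linarith)

end Pool.Agent.W925.QS
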